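import Pool.Agent.Helper35.PI2.St

set_option autoImplicit false

namespace Helper13.PI2

open Helper35.PI Helper35.PI2
open scoped ContDiff Manifold Topology ENNReal BigOperators
open MeasureTheory Set Filter

theorem amgm {X Y s : ℝ} (hX : 0 ≤ X) (hY : 0 ≤ Y) (h : s ^ 2 ≤ 4 * X * Y) : s ≤ X + Y := by
  by_contra hc
  push Not at hc
  nlinarith [sq_nonneg (X - Y)]

theorem ineq {ψ y θ τ D dV dW FH FV r δ' δ₁ C' h v : ℝ} (hψ : 0 ≤ ψ) (hr : 0 < r)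
    (hδ' : 0 < δ') (hδ₁ : 0 < δ₁) (hC' : 0 < C') (hθ : 0 ≤ θ) (hθy : θ ≤ y) (hτ : 0 ≤ τ)
    (hh0 : 0 ≤ h) (hv0 : 0 ≤ v) (hh : h ^ 2 = y) (hv : v ^ 2 ≤ C' * θ * τ)
    (hFH : |FH| * r ≤ h) (hFV : |FV| * r ≤ v)
    (hD : D - y * θ ≤ dV - δ₁ * τ - δ' * (y * θ))
    (hW : dW = ψ ^ 4 * dV - 8 * r ^ 2 * ψ ^ 3 * FV) :
    -(8 * r ^ 2) * ψ ^ 3 * FH * θ + ψ ^ 4 * D - y * (ψ ^ 4 * θ) ≤
      dW + (16 * C' / δ₁ + 32 / δ') ^ 2 / δ' * r ^ 4 - δ' / 4 * (ψ ^ 4 * (y * θ)) := by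
  set K : ℝ := 16 * C' / δ₁ + 32 / δ' with hK
  have hy : 0 ≤ y := hθ.trans hθy
  -- the first Young inequality
  have y1 : 8 * r * ψ ^ 3 * v ≤ δ₁ * ψ ^ 4 * τ + 16 * C' / δ₁ * r ^ 2 * ψ ^ 2 * θ := by
    refine amgm (by positivity) (by positivity) ?_
    have e : 4 * (δ₁ * ψ ^ 4 * τ) * (16 * C' / δ₁ * r ^ 2 * ψ ^ 2 * θ) =
        64 * r ^ 2 * ψ ^ 6 * (C' * θ * τ) := by
      field_simp
      ring
    rw [e]
    calc (8 * r * ψ ^ 3 * v) ^ 2 = 64 * r ^ 2 * ψ ^ 6 * v ^ 2 := by ring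
      _ ≤ 64 * r ^ 2 * ψ ^ 6 * (C' * θ * τ) := mul_le_mul_of_nonneg_left hv (by positivity)
  have y2 : 8 * r * ψ ^ 3 * h * θ ≤ δ' / 2 * ψ ^ 4 * (y * θ) + 32 / δ' * r ^ 2 * ψ ^ 2 * θ := by
    refine amgm (by positivity) (by positivity) (le_of_eq ?_)
    rw [← hh]
    field_simp
    ring
  have y3 : K * r ^ 2 * ψ ^ 2 * θ ≤ δ' / 4 * ψ ^ 4 * θ ^ 2 + K ^ 2 / δ' * r ^ 4 := by
    refine amgm (by positivity) (by positivity) (le_of_eq ?_)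
    field_simp
  have y4 : δ' / 4 * ψ ^ 4 * θ ^ 2 ≤ δ' / 4 * ψ ^ 4 * (y * θ) := by
    refine mul_le_mul_of_nonneg_left ?_ (by positivity)
    rw [pow_two]
    exact mul_le_mul_of_nonneg_right hθy hθ
  have z1 : -(8 * r ^ 2) * ψ ^ 3 * FH * θ ≤ 8 * r * ψ ^ 3 * h * θ := by
    have h1 : -FH ≤ |FH| := neg_le_abs FH
    have h2 : 8 * r * ψ ^ 3 * θ * (-FH * r) ≤ 8 * r * ψ ^ 3 * θ * (|FH| * r) :=
      mul_le_mul_of_nonneg_left (mul_le_mul_of_nonneg_right h1 hr.le) (by positivity)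
    have h3 : 8 * r * ψ ^ 3 * θ * (|FH| * r) ≤ 8 * r * ψ ^ 3 * θ * h :=
      mul_le_mul_of_nonneg_left hFH (by positivity)
    linarith
  have z2 : 8 * r ^ 2 * ψ ^ 3 * FV ≤ 8 * r * ψ ^ 3 * v := by
    have h1 : FV ≤ |FV| := le_abs_self FV
    have h2 : 8 * r * ψ ^ 3 * (FV * r) ≤ 8 * r * ψ ^ 3 * (|FV| * r) :=
      mul_le_mul_of_nonneg_left (mul_le_mul_of_nonneg_right h1 hr.le) (by positivity)
    have h3 : 8 * r * ψ ^ 3 * (|FV| * r) ≤ 8 * r * ψ ^ 3 * v :=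
      mul_le_mul_of_nonneg_left hFV (by positivity)
    linarith
  have z3 : ψ ^ 4 * (D - y * θ) ≤ ψ ^ 4 * (dV - δ₁ * τ - δ' * (y * θ)) :=
    mul_le_mul_of_nonneg_left hD (by positivity)
  have e1 : K * r ^ 2 * ψ ^ 2 * θ = 16 * C' / δ₁ * r ^ 2 * ψ ^ 2 * θ + 32 / δ' * r ^ 2 * ψ ^ 2 * θ := by
    rw [hK]
    ring
  rw [hW]
  linarith

theorem tq_nonneg {N : ℕ} (T : Fin 2 → Fin 2 → Fin 2 → EE N) : 0 ≤ tq T :=
  Finset.sum_nonneg fun _ _ => Finset.sum_nonneg fun _ _ => Finset.sum_nonneg fun _ _ => sq_nonneg _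

theorem hEP (hMG : StMG) (hMA : StMA) (hEQ : StEQ) (hPW : StPW) : StEP := by
  intro c₀ hc₀
  obtain ⟨μ, δ', δ₁, C', hδ', hδ₁, hC', hPW⟩ := hPW c₀ hc₀
  refine ⟨μ, δ' / 4, (16 * C' / δ₁ + 32 / δ') ^ 2 / δ', by positivity, by positivity, ?_⟩
  intro N M _ _ _ F hF hpin
  have key : ∀ (q : M) (t : ℝ), t < 0 →
      ∃ (A : Fin 2 → Fin 2 → EE N) (T : Fin 2 → Fin 2 → Fin 2 → EE N),
      ‖HH (n := 2) F q t‖ ^ 2 = YY A ∧ thF 2 F q t = 2 * XX A - YY A ∧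
      0 ≤ 2 * XX A - YY A ∧ 2 * XX A - YY A ≤ YY A ∧
      deriv (fun s => thF 2 F q s) t - YY A * (2 * XX A - YY A) ≤
        dvg (n := 2) F (VF 2 μ F t) q t - δ₁ * tq T - δ' * (YY A * (2 * XX A - YY A)) ∧
      ‖VF 2 μ F t q‖ ^ 2 ≤ C' * (2 * XX A - YY A) * tq T := by
    intro q t ht
    obtain ⟨A, T, hA, hT, hXX, hYY, hV, hd⟩ := hMG 2 N M F hF q t μ ht
    have hp := hpin q t ht
    rw [hXX, hYY] at hp
    obtain ⟨p1, p2, p3, p4⟩ := hPW N A T hA hT hp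
    refine ⟨A, T, hYY, ?_, p1, p2, ?_, ?_⟩
    · unfold thF
      rw [hXX, hYY]
    · rw [hd.deriv]
      linarith
    · rw [hV]
      exact p4
  refine ⟨?_, ?_⟩
  · intro q t ht
    obtain ⟨A, T, hYY, hth, p1, p2, -⟩ := key q t ht
    rw [hth, hYY]
    exact ⟨p1, p2⟩
  · intro R t q hR ht
    obtain ⟨A, T, hYY, hth, p1, p2, p3, p4⟩ := key q t ht
    obtain ⟨m1, -, m3, -⟩ := hMA 2 N M F hF μ t ht
    obtain ⟨-, hW⟩ := hEQ 2 N M F hF R t hR ht (VF 2 μ F t) m1 m3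
    have hWq := hW q
    have hψ0 : 0 ≤ psR R F q t := le_max_left _ _
    rcases hψ0.eq_or_lt with hψ | hψ
    · have h1 : bE 2 R F q t = 0 := by
        unfold bE
        rw [← hψ]
        ring
      rw [h1, hWq, ← hψ]
      have h2 : (0 : ℝ) ≤ (16 * C' / δ₁ + 32 / δ') ^ 2 / δ' / R ^ 4 *
          indicator {q : M | ‖F q t‖ ≤ R} (1 : M → ℝ) q := by
        refine mul_nonneg (by positivity) ?_
        exact indicator_nonneg (fun _ _ => zero_le_one) _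
      linarith
    · have hFR : ‖F q t‖ < R := by
        unfold psR at hψ
        rcases lt_max_iff.1 hψ with h | h
        · exact absurd h (lt_irrefl _)
        · have h1 : ‖F q t‖ ^ 2 / R ^ 2 < 1 := by linarith
          rw [div_lt_one (by positivity)] at h1
          exact lt_of_pow_lt_pow_left₀ 2 hR.le h1
      have hind : indicator {q : M | ‖F q t‖ ≤ R} (1 : M → ℝ) q = 1 := by
        rw [indicator_of_mem (by exact hFR.le)]
        rfl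
      have hr : 0 < R⁻¹ := inv_pos.2 hR
      have hnr : ‖F q t‖ * R⁻¹ ≤ 1 := by
        rw [← div_eq_mul_inv, div_le_one hR]
        exact hFR.le
      have i1 : |(inner ℝ (F q t) (HH (n := 2) F q t) : ℝ)| * R⁻¹ ≤ ‖HH (n := 2) F q t‖ := by
        have h1 := abs_real_inner_le_norm (F q t) (HH (n := 2) F q t)
        have h2 := mul_le_mul_of_nonneg_right h1 hr.le
        have h3 := mul_le_mul_of_nonneg_left hnr (norm_nonneg (HH (n := 2) F q t))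
        linarith
      have i2 : |(inner ℝ (F q t) (VF 2 μ F t q) : ℝ)| * R⁻¹ ≤ ‖VF 2 μ F t q‖ := by
        have h1 := abs_real_inner_le_norm (F q t) (VF 2 μ F t q)
        have h2 := mul_le_mul_of_nonneg_right h1 hr.le
        have h3 := mul_le_mul_of_nonneg_left hnr (norm_nonneg (VF 2 μ F t q))
        linarith
      have hτ : 0 ≤ tq T := tq_nonneg T
      have hW' : dvg (n := 2) F (fun q => psR R F q t ^ 4 • VF 2 μ F t q) q t =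
          psR R F q t ^ 4 * dvg (n := 2) F (VF 2 μ F t) q t -
            8 * R⁻¹ ^ 2 * psR R F q t ^ 3 * (inner ℝ (F q t) (VF 2 μ F t q) : ℝ) := by
        rw [hWq, inv_pow, div_eq_mul_inv]
      have main := ineq hψ.le hr hδ' hδ₁ hC' p1 p2 hτ (norm_nonneg (HH (n := 2) F q t))
        (norm_nonneg (VF 2 μ F t q)) hYY p4 i1 i2 p3 hW'
      rw [hind, mul_one]
      unfold bE
      rw [hYY, hth]
      have e1 : (8 : ℝ) / R ^ 2 = 8 * R⁻¹ ^ 2 := by rw [inv_pow, div_eq_mul_inv]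
      have e2 : (16 * C' / δ₁ + 32 / δ') ^ 2 / δ' / R ^ 4 =
          (16 * C' / δ₁ + 32 / δ') ^ 2 / δ' * R⁻¹ ^ 4 := by rw [inv_pow, div_eq_mul_inv]
      rw [e1, e2]
      exact main

end Helper13.PI2
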